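import Pool.Agent.LPC.Stmts

/-!
# Squad LPC, row GDR: derivative under the integral sign
-/

set_option autoImplicit false

noncomputable section

open MeasureTheory Filter Topology
open scoped RealInnerProductSpace

namespace Pool.Agent.LPC.H59

open Pool.Agent.LPC

theorem cont_int (n k : ℕ) (x : V n) (b : ℝ) : Continuous
    (fun w : V n => ‖w‖ ^ (2 * k) * Real.exp (-b * ‖w‖ ^ 2 / 2) * Real.cos ⟪x, w⟫) := by
  fun_prop

theorem int_int (hG : GinStmt) (n k : ℕ) (x : V n) (b : ℝ) (hb : 0 < b) : Integrable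
    (fun w : V n => ‖w‖ ^ (2 * k) * Real.exp (-b * ‖w‖ ^ 2 / 2) * Real.cos ⟪x, w⟫) := by
  refine (hG n (2 * k) b hb).mono' (cont_int n k x b).aestronglyMeasurable ?_
  refine Filter.Eventually.of_forall fun w => ?_
  rw [norm_mul, Real.norm_eq_abs, Real.norm_eq_abs, abs_of_nonneg (by positivity)]
  exact mul_le_of_le_one_right (by positivity) (Real.abs_cos_le_one _)

theorem gdr (hG : GinStmt) : GdrStmt := by
  intro n k x a ha
  have hs : Set.Ioi (a / 2) ∈ 𝓝 a := Ioi_mem_nhds (by linarith)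
  have h := hasDerivAt_integral_of_dominated_loc_of_deriv_le (μ := (volume : Measure (V n)))
    (F := fun (b : ℝ) (w : V n) =>
      ‖w‖ ^ (2 * k) * Real.exp (-b * ‖w‖ ^ 2 / 2) * Real.cos ⟪x, w⟫)
    (F' := fun (b : ℝ) (w : V n) =>
      -(‖w‖ ^ (2 * (k + 1)) * Real.exp (-b * ‖w‖ ^ 2 / 2) * Real.cos ⟪x, w⟫) / 2)
    (bound := fun w : V n => ‖w‖ ^ (2 * (k + 1)) * Real.exp (-(a / 2) * ‖w‖ ^ 2 / 2))
    (x₀ := a) hs
    (Filter.Eventually.of_forall fun b => (cont_int n k x b).aestronglyMeasurable)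
    (int_int hG n k x a ha)
    (((cont_int n (k + 1) x a).neg.div_const 2).aestronglyMeasurable)
    (Filter.Eventually.of_forall fun w => ?_)
    (hG n (2 * (k + 1)) (a / 2) (by linarith))
    (Filter.Eventually.of_forall fun w => ?_)
  · have h2 := h.2
    rw [integral_div, integral_neg] at h2
    exact h2
  · intro b hb
    have hb' : a / 2 < b := hb
    rw [norm_div, norm_neg, norm_mul, Real.norm_eq_abs, Real.norm_eq_abs, Real.norm_eq_abs,
      abs_of_nonneg (a := ‖w‖ ^ (2 * (k + 1)) * Real.exp (-b * ‖w‖ ^ 2 / 2)) (by positivity),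
      abs_of_pos (two_pos : (0 : ℝ) < 2)]
    have h1 : ‖w‖ ^ (2 * (k + 1)) * Real.exp (-b * ‖w‖ ^ 2 / 2) * |Real.cos ⟪x, w⟫| ≤
        ‖w‖ ^ (2 * (k + 1)) * Real.exp (-(a / 2) * ‖w‖ ^ 2 / 2) := by
      refine (mul_le_of_le_one_right (by positivity) (Real.abs_cos_le_one _)).trans ?_
      refine mul_le_mul_of_nonneg_left (Real.exp_le_exp.2 ?_) (by positivity)
      have h3 : 0 ≤ ‖w‖ ^ 2 := by positivity
      nlinarith
    have h4 : 0 ≤ ‖w‖ ^ (2 * (k + 1)) * Real.exp (-(a / 2) * ‖w‖ ^ 2 / 2) := by positivity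
    linarith
  · intro b _
    have h1 : HasDerivAt (fun b : ℝ => -b * ‖w‖ ^ 2 / 2) (-1 * ‖w‖ ^ 2 / 2) b :=
      (((hasDerivAt_id b).neg).mul_const (‖w‖ ^ 2)).div_const 2
    have h2 := ((h1.exp.const_mul (‖w‖ ^ (2 * k))).mul_const (Real.cos ⟪x, w⟫))
    refine h2.congr_deriv ?_
    rw [show 2 * (k + 1) = 2 * k + 2 from by ring, pow_add]
    ring

end Pool.Agent.LPC.H59
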